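import Pool.Agent.H93.RHBasic

/-! The base case on the cube: from the inequality for the Laplacian to the dilation inequality
(helper22, for S05882). -/

set_option autoImplicit false

open MeasureTheory Finset Filter
open scoped ENNReal

namespace Pool.Agent.H22.RH
open Pool.Agent.H93.RH

/-- uniform probability on `Bool` -/
noncomputable def muB : Measure Bool := (2 : ℝ≥0∞)⁻¹ • Measure.count

/-- the sign -/
def uB (b : Bool) : ℝ := if b then -1 else 1

instance : IsProbabilityMeasure muB := by
  constructor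
  unfold muB
  rw [Measure.smul_apply, Measure.count_univ]
  simp only [ENat.card_eq_coe_fintype_card, Fintype.card_bool, smul_eq_mul]
  norm_num
  exact ENNReal.inv_mul_cancel (by norm_num) (by norm_num)

theorem muB_singleton (b : Bool) : muB {b} = (2 : ℝ≥0∞)⁻¹ := by
  unfold muB
  rw [Measure.smul_apply, Measure.count_singleton, smul_eq_mul, mul_one]

/-- the norm on the cube as a finite sum -/
theorem lpNorm_cube {ι : Type} [Fintype ι] [DecidableEq ι] {p : ℝ} (hp : 0 < p) (f : (ι → Bool) → ℝ) :
    lpNorm f (ENNReal.ofReal p) (Measure.pi fun _ : ι => muB) =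
      ((∑ x, |f x| ^ p) / 2 ^ (Fintype.card ι)) ^ (1 / p) := by
  have hf : AEStronglyMeasurable f (Measure.pi fun _ : ι => muB) :=
    (measurable_of_countable f).aestronglyMeasurable
  rw [lpNorm_eq_integral_norm_rpow_toReal (by simpa using hp) ENNReal.ofReal_ne_top hf,
    ENNReal.toReal_ofReal hp.le, one_div]
  congr 1
  rw [integral_fintype (Integrable.of_finite), Finset.sum_div]
  apply Finset.sum_congr rfl
  intro x _
  have h1 : (Measure.pi fun _ : ι => muB).real {x} = 1 / 2 ^ (Fintype.card ι) := by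
    rw [Measure.real, Measure.pi_singleton]
    simp only [muB_singleton, Finset.prod_const, Finset.card_univ]
    rw [ENNReal.toReal_pow, ENNReal.toReal_inv]
    simp
  rw [h1, smul_eq_mul, Real.norm_eq_abs]
  ring

/-- reindexing -/
theorem lpNorm_reindex {ι κ : Type} [Fintype ι] [Fintype κ] (e : ι ≃ κ) {p : ℝ} (hp : 0 < p)
    (f : (ι → Bool) → ℝ) :
    lpNorm f (ENNReal.ofReal p) (Measure.pi fun _ : ι => muB) =
      lpNorm (fun y : κ → Bool => f (fun i => y (e i))) (ENNReal.ofReal p)
        (Measure.pi fun _ : κ => muB) := by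
  classical
  rw [lpNorm_cube hp, lpNorm_cube hp, Fintype.card_congr e]
  congr 2
  rw [← Equiv.sum_comp (Equiv.arrowCongr e.symm (Equiv.refl Bool))]
  rfl

theorem ml_reindex {ι κ : Type} [Fintype ι] [Fintype κ] (e : ι ≃ κ) (a : Finset ι → ℝ)
    (w : κ → ℝ) :
    ml a (fun i => w (e i)) = ml (fun S : Finset κ => a (S.map e.symm.toEmbedding)) w := by
  classical
  unfold ml
  rw [← Equiv.sum_comp (e.finsetCongr).symm]
  apply Finset.sum_congr rfl
  intro S _
  have h1 : (e.finsetCongr).symm S = S.map e.symm.toEmbedding := rfl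
  rw [h1, Finset.prod_map]
  simp

/-- the inequality of the frozen statement, for one `p` and one constant -/
def LapIneq (p c : ℝ) : Prop :=
  ∀ d n : ℕ, 1 ≤ d → 1 ≤ n →
    ∀ a : Finset (Fin n) → ℝ, (∀ S : Finset (Fin n), d < S.card → a S = 0) →
      ((∑ T : Finset (Fin n),
            |∑ S : Finset (Fin n), a S * (S.card : ℝ) * (-1 : ℝ) ^ (S ∩ T).card| ^ p)
          / (2 : ℝ) ^ n) ^ (1 / p)
        ≤ c * (d : ℝ) *
          ((∑ T : Finset (Fin n),
              |∑ S : Finset (Fin n), a S * (-1 : ℝ) ^ (S ∩ T).card| ^ p)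
            / (2 : ℝ) ^ n) ^ (1 / p)

/-- sign vectors and sets -/
def setOf' {n : ℕ} (x : Fin n → Bool) : Finset (Fin n) := Finset.univ.filter (fun i => x i = true)

theorem prod_uB {n : ℕ} (S : Finset (Fin n)) (x : Fin n → Bool) :
    ∏ i ∈ S, uB (x i) = (-1 : ℝ) ^ (S ∩ setOf' x).card := by
  unfold uB setOf'
  rw [Finset.prod_ite, Finset.prod_const, Finset.prod_const_one, mul_one]
  congr 2
  ext i
  simp

/-- functions on the cube and sets -/
def cubeEquiv (n : ℕ) : (Fin n → Bool) ≃ Finset (Fin n) where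
  toFun := setOf'
  invFun T := fun i => decide (i ∈ T)
  left_inv x := by
    ext i
    simp [setOf']
  right_inv T := by
    ext i
    simp [setOf']

theorem sum_cube {n : ℕ} (a : Finset (Fin n) → ℝ) {p : ℝ} (hp : 0 < p) :
    lpNorm (fun x : Fin n → Bool => ml a (fun i => uB (x i))) (ENNReal.ofReal p)
      (Measure.pi fun _ => muB) =
    ((∑ T : Finset (Fin n), |∑ S : Finset (Fin n), a S * (-1 : ℝ) ^ (S ∩ T).card| ^ p)
            / (2 : ℝ) ^ n) ^ (1 / p) := by
  rw [lpNorm_cube hp, Fintype.card_fin]
  congr 2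
  rw [← Equiv.sum_comp (cubeEquiv n)]
  apply Finset.sum_congr rfl
  intro x _
  unfold ml
  simp_rw [prod_uB]
  rfl

/-- the inequality in terms of `lpNorm` -/
theorem lap_lp {p c : ℝ} (hp : 0 < p) (h : LapIneq p c) {n d : ℕ} (hn : 1 ≤ n) (hd : 1 ≤ d)
    (a : Finset (Fin n) → ℝ) (ha : ∀ S, d < S.card → a S = 0) :
    lpNorm (fun x : Fin n → Bool => ml (fun S => (S.card : ℝ) * a S) (fun i => uB (x i)))
      (ENNReal.ofReal p) (Measure.pi fun _ => muB) ≤
    c * d * lpNorm (fun x : Fin n → Bool => ml a (fun i => uB (x i))) (ENNReal.ofReal p)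
      (Measure.pi fun _ => muB) := by
  rw [sum_cube _ hp, sum_cube _ hp]
  have h1 := h d n hd hn a ha
  refine le_trans (le_of_eq ?_) h1
  congr 3
  ext T
  congr 2
  apply Finset.sum_congr rfl
  intro S _
  ring

theorem lap_pow {p c : ℝ} (hp : 0 < p) (hc : 0 ≤ c) (h : LapIneq p c) {n d : ℕ} (hn : 1 ≤ n)
    (hd : 1 ≤ d) (a : Finset (Fin n) → ℝ) (ha : ∀ S, d < S.card → a S = 0) (k : ℕ) :
    lpNorm (fun x : Fin n → Bool => ml (fun S => (S.card : ℝ) ^ k * a S) (fun i => uB (x i)))
      (ENNReal.ofReal p) (Measure.pi fun _ => muB) ≤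
    (c * d) ^ k * lpNorm (fun x : Fin n → Bool => ml a (fun i => uB (x i))) (ENNReal.ofReal p)
      (Measure.pi fun _ => muB) := by
  induction k with
  | zero => simp
  | succ k ih =>
    have h1 := lap_lp hp h hn hd (fun S => (S.card : ℝ) ^ k * a S) (fun S hS => by
      simp [ha S hS])
    have e : (fun S : Finset (Fin n) => (S.card : ℝ) * ((S.card : ℝ) ^ k * a S)) =
        fun S => (S.card : ℝ) ^ (k + 1) * a S := by
      ext S; ring
    rw [e] at h1
    refine h1.trans ?_
    calc c * d * _ ≤ c * d * ((c * d) ^ k * _) := mul_le_mul_of_nonneg_left ih (by positivity)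
      _ = _ := by ring

theorem lap_exp {p c : ℝ} (hp : 1 < p) (hc : 0 ≤ c) (h : LapIneq p c) {n d : ℕ} (hn : 1 ≤ n)
    (hd : 1 ≤ d) (a : Finset (Fin n) → ℝ) (ha : ∀ S, d < S.card → a S = 0) {t : ℝ} (ht : 0 ≤ t) :
    lpNorm (fun x : Fin n → Bool => ml (fun S => Real.exp (t * S.card) * a S) (fun i => uB (x i)))
      (ENNReal.ofReal p) (Measure.pi fun _ => muB) ≤
    Real.exp (t * (c * d)) * lpNorm (fun x : Fin n → Bool => ml a (fun i => uB (x i)))
      (ENNReal.ofReal p) (Measure.pi fun _ => muB) := by
  have hp0 : 0 < p := by linarith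
  set N := lpNorm (fun x : Fin n → Bool => ml a (fun i => uB (x i))) (ENNReal.ofReal p)
      (Measure.pi fun _ => muB) with hN
  have hN0 : 0 ≤ N := lpNorm_nonneg
  -- partial sums
  have key : ∀ K : ℕ, lpNorm (fun x : Fin n → Bool =>
      ml (fun S => (∑ k ∈ range K, (t * S.card) ^ k / k.factorial) * a S) (fun i => uB (x i)))
      (ENNReal.ofReal p) (Measure.pi fun _ => muB) ≤ Real.exp (t * (c * d)) * N := by
    intro K
    have e : (fun x : Fin n → Bool =>
        ml (fun S => (∑ k ∈ range K, (t * S.card) ^ k / k.factorial) * a S) (fun i => uB (x i))) =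
        ∑ k ∈ range K, (t ^ k / k.factorial) • (fun x : Fin n → Bool =>
          ml (fun S => (S.card : ℝ) ^ k * a S) (fun i => uB (x i))) := by
      ext x
      rw [Finset.sum_apply]
      simp only [Pi.smul_apply, smul_eq_mul]
      unfold ml
      simp_rw [Finset.mul_sum, Finset.sum_mul]
      rw [Finset.sum_comm]
      apply Finset.sum_congr rfl
      intro k _
      apply Finset.sum_congr rfl
      intro S _
      rw [mul_pow]
      ring
    rw [e]
    refine (lpNorm_sum_le (fun k _ => MemLp.of_discrete) (by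
      rw [← ENNReal.ofReal_one]; exact ENNReal.ofReal_le_ofReal hp.le)).trans ?_
    calc ∑ k ∈ range K, lpNorm ((t ^ k / k.factorial) • (fun x : Fin n → Bool =>
          ml (fun S => (S.card : ℝ) ^ k * a S) (fun i => uB (x i)))) (ENNReal.ofReal p)
          (Measure.pi fun _ => muB)
        ≤ ∑ k ∈ range K, (t * (c * d)) ^ k / k.factorial * N := by
          apply Finset.sum_le_sum
          intro k _
          rw [lpNorm_const_smul]
          have h1 := lap_pow hp0 hc h hn hd a ha k
          have h2 : ((‖t ^ k / (k.factorial : ℝ)‖₊ : NNReal) : ℝ) = t ^ k / k.factorial := by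
            rw [coe_nnnorm, Real.norm_of_nonneg (by positivity)]
          rw [h2]
          calc t ^ k / k.factorial * _ ≤ t ^ k / k.factorial * ((c * d) ^ k * N) :=
                mul_le_mul_of_nonneg_left h1 (by positivity)
            _ = _ := by rw [mul_pow]; ring
      _ = (∑ k ∈ range K, (t * (c * d)) ^ k / k.factorial) * N := by rw [Finset.sum_mul]
      _ ≤ _ := mul_le_mul_of_nonneg_right (Real.sum_le_exp_of_nonneg (by positivity) K) hN0
  -- limit
  have hlim : Tendsto (fun K : ℕ => lpNorm (fun x : Fin n → Bool =>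
      ml (fun S => (∑ k ∈ range K, (t * S.card) ^ k / k.factorial) * a S) (fun i => uB (x i)))
      (ENNReal.ofReal p) (Measure.pi fun _ => muB)) atTop
      (nhds (lpNorm (fun x : Fin n → Bool =>
        ml (fun S => Real.exp (t * S.card) * a S) (fun i => uB (x i)))
      (ENNReal.ofReal p) (Measure.pi fun _ => muB))) := by
    simp_rw [lpNorm_cube hp0]
    have hexp : ∀ z : ℝ, Tendsto (fun K : ℕ => ∑ k ∈ range K, z ^ k / k.factorial) atTop
        (nhds (Real.exp z)) := by
      intro z
      have h1 := NormedSpace.expSeries_div_hasSum_exp (𝔸 := ℝ) z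
      rw [← Real.exp_eq_exp_ℝ] at h1
      exact h1.tendsto_sum_nat
    have h1 : Tendsto (fun K : ℕ => (∑ x : Fin n → Bool, |ml (fun S =>
        (∑ k ∈ range K, (t * S.card) ^ k / k.factorial) * a S) (fun i => uB (x i))| ^ p) /
          2 ^ Fintype.card (Fin n)) atTop (nhds ((∑ x : Fin n → Bool, |ml (fun S =>
        Real.exp (t * S.card) * a S) (fun i => uB (x i))| ^ p) / 2 ^ Fintype.card (Fin n))) := by
      apply Tendsto.div_const
      apply tendsto_finsetSum
      intro x _
      apply Tendsto.rpow_const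
      · apply Tendsto.abs
        unfold ml
        apply tendsto_finsetSum
        intro S _
        exact ((hexp _).mul_const _).mul_const _
      · right; exact hp0.le
    exact h1.rpow_const (Or.inr (by positivity))
  exact le_of_tendsto hlim (Eventually.of_forall key)

/-- base case on the cube -/
theorem cube_good {p c : ℝ} (hp : 1 < p) (hc : 0 ≤ c) (h : LapIneq p c) {r : ℝ} (hr : 1 ≤ r) :
    Good muB (ENNReal.ofReal p) uB (fun y => r * uB y) (r ^ c) := by
  intro ι _ d a ha
  have hp0 : 0 < p := by linarith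
  have hr0 : 0 < r := by linarith
  have hKd : 1 ≤ (r ^ c) ^ d := one_le_pow₀ (Real.one_le_rpow hr hc)
  have e1 : ∀ x : ι → Bool, ml a (fun i => r * uB (x i)) =
      ml (fun S => r ^ S.card * a S) (fun i => uB (x i)) := by
    intro x
    unfold ml
    apply Finset.sum_congr rfl
    intro S _
    rw [Finset.prod_mul_distrib, Finset.prod_const]
    ring
  simp_rw [e1]
  rcases Nat.eq_zero_or_pos d with hd | hd
  · subst hd
    have e2 : (fun S : Finset ι => r ^ S.card * a S) = a := by
      ext S
      rcases Nat.eq_zero_or_pos S.card with h0 | h0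
      · rw [h0]; simp
      · rw [ha S h0]; simp
    rw [e2, pow_zero, one_mul]
  rcases Nat.eq_zero_or_pos (Fintype.card ι) with hn | hn
  · have e2 : (fun S : Finset ι => r ^ S.card * a S) = a := by
      ext S
      have h0 : S.card = 0 := by
        have := S.card_le_univ
        omega
      rw [h0]; simp
    rw [e2]
    exact le_mul_of_one_le_left lpNorm_nonneg hKd
  · set n := Fintype.card ι with hnd
    let e : ι ≃ Fin n := Fintype.equivFin ι
    rw [lpNorm_reindex e hp0, lpNorm_reindex e hp0]
    have e3 : ∀ b : Finset ι → ℝ, (fun y : Fin n → Bool => ml b (fun i => uB (y (e i)))) =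
        fun y : Fin n → Bool => ml (fun S : Finset (Fin n) => b (S.map e.symm.toEmbedding))
          (fun i => uB (y i)) := by
      intro b
      ext y
      exact ml_reindex e b (fun j => uB (y j))
    rw [e3, e3]
    have h1 := lap_exp hp hc h (n := n) (d := d) hn hd
      (fun S : Finset (Fin n) => a (S.map e.symm.toEmbedding)) (fun S hS => ha _ (by
        rw [Finset.card_map]; exact hS)) (t := Real.log r) (Real.log_nonneg hr)
    have e4 : ∀ S : Finset (Fin n), r ^ (S.map e.symm.toEmbedding).card =
        Real.exp (Real.log r * S.card) := by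
      intro S
      rw [Finset.card_map, mul_comm, Real.exp_nat_mul, Real.exp_log hr0]
    have e5 : (r ^ c) ^ d = Real.exp (Real.log r * (c * d)) := by
      rw [Real.rpow_def_of_pos hr0, ← Real.exp_nat_mul]
      congr 1
      ring
    simp_rw [e4]
    rw [e5]
    exact h1

end Pool.Agent.H22.RH
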