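import Pool.Agent.H93.RHPoint
import Pool.Agent.H22.RH.Cube

/-! The arcsine alphabet and moment convergence (helper22, for S05882). -/

set_option autoImplicit false

open MeasureTheory Finset Filter Topology
open scoped ENNReal

namespace Pool.Agent.H22.RH
open Pool.Agent.H93.RH

/-- uniform probability on `(0, 2π]` -/
noncomputable def muC : Measure ℝ :=
  (ENNReal.ofReal (2 * Real.pi))⁻¹ • volume.restrict (Set.Ioc 0 (2 * Real.pi))

/-- the arcsine variable -/
noncomputable def uC (θ : ℝ) : ℝ := Real.sqrt 2 * Real.cos θ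

instance : IsProbabilityMeasure muC := by
  constructor
  unfold muC
  rw [Measure.smul_apply, Measure.restrict_apply_univ, Real.volume_Ioc, sub_zero, smul_eq_mul]
  exact ENNReal.inv_mul_cancel (by simp [Real.pi_pos]) ENNReal.ofReal_ne_top

theorem uC_meas : Measurable uC := by unfold uC; fun_prop

theorem abs_uC_le (x : ℝ) : |uC x| ≤ 2 := by
  unfold uC
  rw [abs_mul, abs_of_nonneg (Real.sqrt_nonneg 2)]
  have h1 := Real.abs_cos_le_one x
  have h2 : Real.sqrt 2 ≤ 2 := by
    rw [Real.sqrt_le_left (by norm_num)]; norm_num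
  have h3 := Real.sqrt_nonneg 2
  nlinarith [abs_nonneg (Real.cos x)]

/-- coefficients -/
noncomputable def cf (m k : ℕ) : ℂ := ((Real.sqrt 2 / 2 : ℝ) : ℂ) ^ m * (m.choose k : ℂ)

theorem cos_pow (m : ℕ) (θ : ℝ) : (((Real.sqrt 2 * Real.cos θ) ^ m : ℝ) : ℂ) =
    ∑ k ∈ range (m + 1), cf m k * Complex.exp (Complex.I * (((2 * k - m : ℤ) * θ : ℝ) : ℂ)) := by
  have h1 : ((Real.sqrt 2 * Real.cos θ : ℝ) : ℂ) = ((Real.sqrt 2 / 2 : ℝ) : ℂ) *
      (Complex.exp (Complex.I * θ) + Complex.exp (-(Complex.I * θ))) := by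
    rw [Complex.ofReal_mul, Complex.ofReal_cos, Complex.cos]
    push_cast
    rw [show Complex.I * (θ : ℂ) = (θ : ℂ) * Complex.I by ring,
      show -((θ : ℂ) * Complex.I) = -(θ : ℂ) * Complex.I by ring]
    ring
  rw [Complex.ofReal_pow, h1, mul_pow, add_pow, Finset.mul_sum]
  apply Finset.sum_congr rfl
  intro k hk
  rw [mem_range] at hk
  unfold cf
  rw [← Complex.exp_nat_mul, ← Complex.exp_nat_mul, ← Complex.exp_add]
  have e : (k : ℂ) * (Complex.I * θ) + ((m - k : ℕ) : ℂ) * (-(Complex.I * θ)) =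
      Complex.I * (((2 * k - m : ℤ) * θ : ℝ) : ℂ) := by
    rw [Nat.cast_sub (by omega)]
    push_cast
    ring
  rw [e]
  ring

theorem moment_formula {Ω : Type} [MeasurableSpace Ω] (μ : Measure Ω) [IsProbabilityMeasure μ]
    {Θ : Ω → ℝ} (hΘ : Measurable Θ) (m : ℕ) :
    ((∫ y, (Real.sqrt 2 * Real.cos (Θ y)) ^ m ∂μ : ℝ) : ℂ) =
      ∑ k ∈ range (m + 1), cf m k *
        ∫ y, Complex.exp (Complex.I * (((2 * k - m : ℤ) * Θ y : ℝ) : ℂ)) ∂μ := by
  rw [← integral_complex_ofReal]
  simp_rw [cos_pow]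
  rw [integral_finsetSum]
  · simp_rw [integral_const_mul]
  · intro k _
    apply Integrable.const_mul
    apply Integrable.of_bound (C := 1)
    · exact (by fun_prop : Measurable fun y =>
        Complex.exp (Complex.I * (((2 * k - m : ℤ) * Θ y : ℝ) : ℂ))).aestronglyMeasurable
    · refine Eventually.of_forall fun y => ?_
      rw [mul_comm, Complex.norm_exp_ofReal_mul_I]

theorem char_zero' {Ω : Type} [MeasurableSpace Ω] (μ : Measure Ω) [IsProbabilityMeasure μ]
    (Θ : Ω → ℝ) : ∫ y, Complex.exp (Complex.I * (((0 : ℤ) * Θ y : ℝ) : ℂ)) ∂μ = 1 := by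
  simp

/-- characteristic integrals of the uniform law -/
theorem char_muC {l : ℤ} (hl : l ≠ 0) :
    ∫ y, Complex.exp (Complex.I * ((l * y : ℝ) : ℂ)) ∂muC = 0 := by
  unfold muC
  rw [integral_smul_measure, ← intervalIntegral.integral_of_le (by positivity)]
  have e : ∀ y : ℝ, Complex.exp (Complex.I * ((l * y : ℝ) : ℂ)) =
      Complex.exp ((l * Complex.I : ℂ) * y) := by
    intro y
    congr 1
    push_cast
    ring
  simp_rw [e]
  rw [integral_exp_mul_complex (by simp [hl])]
  have e1 : Complex.exp ((l * Complex.I : ℂ) * ((2 * Real.pi : ℝ) : ℂ)) = 1 := by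
    rw [← Complex.exp_int_mul_two_pi_mul_I l]
    congr 1
    push_cast
    ring
  rw [e1]
  simp

/-- the limit of the moments -/
noncomputable def lim (m : ℕ) : ℂ := ∑ k ∈ range (m + 1), cf m k * (if (2 * k - m : ℤ) = 0 then 1 else 0)

theorem moment_muC (m : ℕ) : ((∫ y, uC y ^ m ∂muC : ℝ) : ℂ) = lim m := by
  unfold uC lim
  have e1 := moment_formula muC (Θ := fun y => y) measurable_id' m
  rw [e1]
  apply Finset.sum_congr rfl
  intro k _
  congr 1
  by_cases h : (2 * k - m : ℤ) = 0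
  · rw [if_pos h, h]
    exact char_zero' muC _
  · rw [if_neg h]
    exact char_muC h

theorem moments_tendsto {Ω : ℕ → Type} [∀ n, MeasurableSpace (Ω n)] {μ : ∀ n, Measure (Ω n)}
    [∀ n, IsProbabilityMeasure (μ n)] {Θ : ∀ n, Ω n → ℝ} (hΘ : ∀ n, Measurable (Θ n))
    (hchar : ∀ m : ℤ, m ≠ 0 →
      Tendsto (fun n => ∫ y, Complex.exp (Complex.I * (m * Θ n y : ℝ)) ∂(μ n)) atTop (𝓝 0))
    (m : ℕ) : Tendsto (fun n => ∫ y, (Real.sqrt 2 * Real.cos (Θ n y)) ^ m ∂(μ n)) atTop
      (𝓝 (∫ y, uC y ^ m ∂muC)) := by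
  have h1 : Tendsto (fun n => ((∫ y, (Real.sqrt 2 * Real.cos (Θ n y)) ^ m ∂(μ n) : ℝ) : ℂ)) atTop
      (𝓝 (((∫ y, uC y ^ m ∂muC : ℝ) : ℂ))) := by
    rw [moment_muC]
    simp_rw [fun n => moment_formula (μ n) (hΘ n) m]
    unfold lim
    apply tendsto_finsetSum
    intro k _
    apply Tendsto.const_mul
    by_cases h : (2 * k - m : ℤ) = 0
    · rw [if_pos h, h]
      simp_rw [fun n => char_zero' (μ n) (Θ n)]
      exact tendsto_const_nhds
    · rw [if_neg h]
      exact hchar _ h
  have h2 := (Complex.continuous_re.tendsto _).comp h1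
  simpa [Function.comp_def] using h2

theorem alphC : Alph muC uC := by
  have h1 := moment_muC 1
  have h2 := moment_muC 2
  refine ⟨uC_meas, ?_, ?_, ?_⟩
  · apply Integrable.of_bound (C := 8)
    · exact (uC_meas.abs.pow_const 3).aestronglyMeasurable
    · refine Eventually.of_forall fun y => ?_
      rw [Real.norm_of_nonneg (by positivity)]
      calc |uC y| ^ 3 ≤ 2 ^ 3 := pow_le_pow_left₀ (abs_nonneg _) (abs_uC_le y) 3
        _ = 8 := by norm_num
  · have e : lim 1 = 0 := by
      unfold lim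
      simp [Finset.sum_range_succ]
    rw [e] at h1
    simpa using h1
  · have e : lim 2 = 1 := by
      unfold lim cf
      have h3 : ((Real.sqrt 2 / 2 : ℝ) : ℂ) ^ 2 = 1 / 2 := by
        rw [← Complex.ofReal_pow, div_pow, Real.sq_sqrt (by norm_num)]
        push_cast
        norm_num
      rw [h3]
      simp [Finset.sum_range_succ]
    rw [e] at h2
    exact_mod_cast h2

theorem alphB : Alph muB uB := by
  have hm : ∀ f : Bool → ℝ, ∫ y, f y ∂muB = (f true + f false) / 2 := by
    intro f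
    rw [integral_fintype (Integrable.of_finite)]
    simp only [Fintype.univ_bool, Finset.mem_singleton, Bool.true_eq_false, not_false_eq_true,
      Finset.sum_insert, Finset.sum_singleton, smul_eq_mul]
    have h1 : ∀ b : Bool, muB.real {b} = 1 / 2 := by
      intro b
      rw [Measure.real, muB_singleton, ENNReal.toReal_inv]
      simp
    rw [h1, h1]
    ring
  refine ⟨measurable_of_countable _, Integrable.of_finite, ?_, ?_⟩
  · rw [hm]; unfold uB; norm_num
  · rw [hm]; unfold uB; norm_num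

end Pool.Agent.H22.RH
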